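import Pool.Agent.H55.CU.Targets

/-!
# Row VBA of cou_modules: the base, masses
-/

set_option autoImplicit false

open Pool.Agent.H55.CU

namespace Pool.Agent.H86.CU

theorem shift_sum (h : ℕ → ℝ) (hh : ∀ l, 0 ≤ h l) (c n : ℕ) :
    ∑ a ∈ Finset.range n, (if c ≤ a then h (a - c) else 0) ≤ ∑ l ∈ Finset.range n, h l := by
  rw [← Finset.sum_filter]
  have h1 : ∑ a ∈ (Finset.range n).filter (fun a => c ≤ a), h (a - c) =
      ∑ l ∈ ((Finset.range n).filter (fun a => c ≤ a)).image (fun a => a - c), h l := by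
    rw [Finset.sum_image]
    intro a ha b hb hab
    rw [Finset.mem_coe, Finset.mem_filter] at ha hb
    have hab' : a - c = b - c := hab
    omega
  rw [h1]
  refine Finset.sum_le_sum_of_subset_of_nonneg ?_ fun l _ _ => hh l
  intro l hl
  rw [Finset.mem_image] at hl
  obtain ⟨a, ha, rfl⟩ := hl
  rw [Finset.mem_filter, Finset.mem_range] at ha
  rw [Finset.mem_range]
  omega

theorem triple (v0 g v : ℕ → ℝ) (h0 : ∀ a, 0 ≤ v0 a) (hg : ∀ a, 0 ≤ g a) (hv : ∀ a, 0 ≤ v a)
    (n : ℕ) :
    ∑ a ∈ Finset.range n, ∑ i ∈ Finset.range (a + 1), ∑ j ∈ Finset.Icc 1 a,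
      (if i + j ≤ a then v0 i * g j * v (a - i - j) else 0) ≤
    (∑ i ∈ Finset.range n, v0 i) * (∑ j ∈ Finset.Icc 1 n, g j) * ∑ l ∈ Finset.range n, v l := by
  have hnn : ∀ a i j, 0 ≤ (if i + j ≤ a then v0 i * g j * v (a - i - j) else 0) := by
    intro a i j
    split_ifs
    · exact mul_nonneg (mul_nonneg (h0 i) (hg j)) (hv _)
    · exact le_rfl
  calc ∑ a ∈ Finset.range n, ∑ i ∈ Finset.range (a + 1), ∑ j ∈ Finset.Icc 1 a,
        (if i + j ≤ a then v0 i * g j * v (a - i - j) else 0)
      ≤ ∑ a ∈ Finset.range n, ∑ i ∈ Finset.range n, ∑ j ∈ Finset.Icc 1 n,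
        (if i + j ≤ a then v0 i * g j * v (a - i - j) else 0) := by
        refine Finset.sum_le_sum fun a ha => ?_
        have ha' := Finset.mem_range.1 ha
        refine (Finset.sum_le_sum_of_subset_of_nonneg
          (Finset.range_subset_range.2 (show a + 1 ≤ n by omega))
          fun i _ _ => Finset.sum_nonneg fun j _ => hnn a i j).trans ?_
        refine Finset.sum_le_sum fun i _ => ?_
        exact Finset.sum_le_sum_of_subset_of_nonneg
          (Finset.Icc_subset_Icc_right (show a ≤ n by omega)) fun j _ _ => hnn a i j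
    _ = ∑ i ∈ Finset.range n, ∑ j ∈ Finset.Icc 1 n, ∑ a ∈ Finset.range n,
        (if i + j ≤ a then v0 i * g j * v (a - i - j) else 0) := by
        rw [Finset.sum_comm]
        refine Finset.sum_congr rfl fun i _ => ?_
        rw [Finset.sum_comm]
    _ ≤ ∑ i ∈ Finset.range n, ∑ j ∈ Finset.Icc 1 n, v0 i * g j * ∑ l ∈ Finset.range n, v l := by
        refine Finset.sum_le_sum fun i _ => Finset.sum_le_sum fun j _ => ?_
        have h1 := shift_sum v hv (i + j) n
        have h2 : ∑ a ∈ Finset.range n, (if i + j ≤ a then v0 i * g j * v (a - i - j) else 0) =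
            v0 i * g j * ∑ a ∈ Finset.range n, (if i + j ≤ a then v (a - (i + j)) else 0) := by
          rw [Finset.mul_sum]
          refine Finset.sum_congr rfl fun a _ => ?_
          rw [mul_ite, mul_zero, Nat.sub_sub]
        rw [h2]
        exact mul_le_mul_of_nonneg_left h1 (mul_nonneg (h0 i) (hg j))
    _ = _ := by
        rw [Finset.sum_mul_sum, Finset.sum_mul]
        refine Finset.sum_congr rfl fun i _ => ?_
        rw [Finset.sum_mul]

theorem pf_VBA (hGAS : T_GAS) : T_VBA := by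
  intro α v0 v hα hα1 h0 hv hA hrec
  obtain ⟨hg, hG, -⟩ := hGAS α hα hα1
  constructor
  · intro n
    obtain ⟨S, hS⟩ : ∃ S : ℝ, S = ∑ a ∈ Finset.range n, v a := ⟨_, rfl⟩
    have hS0 : 0 ≤ S := by
      rw [hS]
      exact Finset.sum_nonneg fun a _ => hv a
    have h1 : S ≤ ∑ a ∈ Finset.range n, v0 a + ∑ a ∈ Finset.range n,
        ∑ i ∈ Finset.range (a + 1), ∑ j ∈ Finset.Icc 1 a,
          (if i + j ≤ a then v0 i * ga α j * v (a - i - j) else 0) := by
      rw [hS, ← Finset.sum_add_distrib]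
      exact Finset.sum_le_sum fun a _ => hrec a
    have h2 := triple v0 (ga α) v h0 hg hv n
    rw [← hS] at h2
    have h3 := hA n
    have h4 := hG n
    have h5 : (∑ i ∈ Finset.range n, v0 i) * (∑ j ∈ Finset.Icc 1 n, ga α j) ≤ 7 / 10 := by
      calc (∑ i ∈ Finset.range n, v0 i) * (∑ j ∈ Finset.Icc 1 n, ga α j)
          ≤ (16 / 13 * α) * (9 / 16 * (2 + 1 / α)) :=
            mul_le_mul h3 h4 (Finset.sum_nonneg fun j _ => hg j) (by positivity)
        _ = 9 / 13 * (1 + 2 * α) := by
            field_simp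
            ring
        _ ≤ 7 / 10 := by linarith
    have h6 : S ≤ 16 / 13 * α + 7 / 10 * S := by
      have := mul_le_mul_of_nonneg_right h5 hS0
      linarith
    rw [← hS]
    linarith
  · have h1 := hrec 0
    have h2 := hA 1
    simp at h1 h2
    linarith

end Pool.Agent.H86.CU
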