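import Pool.Agent.H55.CU.Targets

/-!
# Row NUF of cou_modules: the masses of the old stretches
-/

set_option autoImplicit false

open MeasureTheory ProbabilityTheory Filter Topology Pool.Agent.H55.CU
open scoped ENNReal

namespace Pool.Agent.H86.CU

theorem pf_NUF (hSPL : T_SPL) (hBKP : T_BKP) (hTHP : T_THP) (hAEX : T_AEX) : T_NUF := by
  intro α s hα hα1 hαs
  have hα4 : α ≤ 1 / 4 := by
    refine hα1.trans ?_
    norm_num
  obtain ⟨θ, hθ⟩ : ∃ θ : ℝ, θ = th α (s + 1) := ⟨_, rfl⟩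
  obtain ⟨t1, t2, -, t4, t5⟩ := hTHP α (s + 1) hα hα4
  rw [← hθ] at t1 t2 t4 t5
  obtain ⟨-, a2, a3, -, -, a6⟩ := hAEX α θ hα hα1 t2 t5
  have hθ0 : 0 < θ := by linarith
  have h2s : (1 : ℝ) ≤ 2 ^ s := one_le_pow₀ (by norm_num)
  have hα2s : α * 2 ^ s ≤ 1 / 2 ^ 38 := by
    rw [pow_succ] at hαs
    norm_num at hαs ⊢
    linarith
  have hcc : 0 ≤ cc α := by unfold cc; positivity
  have hnn : ∀ a, 0 ≤ nn α a := by
    intro a
    unfold nn
    split_ifs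
    · exact hα.le
    · positivity
  have hdd0 : ∀ a, 0 ≤ dd (cc α) s a := by
    intro a
    rcases Nat.eq_zero_or_pos a with h | h
    · rw [h]
      simp [dd]
    · exact le_trans (by norm_num) (hBKP (cc α) s a hcc h).2.1
  have hFF0 : FF α s 0 = (6 * α) ^ θ := by
    unfold FF dd nn
    rw [if_pos rfl, if_pos rfl, hθ]
  have hdd : ∀ a, 1 ≤ a → dd (cc α) s a + rr (cc α) s a ≤ 2 ^ 23 ∧
      dd (cc α) (s + 1) a ≤ 2 ^ 23 := by
    intro a ha
    obtain ⟨b1, b2, b3, b4⟩ := hBKP (cc α) s a hcc ha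
    obtain ⟨-, -, b5, -⟩ := hBKP (cc α) (s + 1) a hcc ha
    have h1 : 4 * cc α * 2 ^ (s + 1) ≤ 4320 * 2 ^ 9 := by
      have e1 : 4 * cc α * 2 ^ (s + 1) = 4320 * 2 ^ 46 * (α * 2 ^ (s + 1)) := by
        unfold cc
        ring
      rw [e1]
      calc (4320 : ℝ) * 2 ^ 46 * (α * 2 ^ (s + 1)) ≤ 4320 * 2 ^ 46 * (1 / 2 ^ 37) :=
            mul_le_mul_of_nonneg_left hαs (by positivity)
        _ = 4320 * 2 ^ 9 := by norm_num
    have h2 : dd (cc α) (s + 1) a ≤ 2 ^ 23 := by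
      refine b5.trans ?_
      norm_num at h1 ⊢
      linarith
    refine ⟨?_, h2⟩
    rw [b4] at h2
    linarith
  have hFF : ∀ a, 1 ≤ a → FF α s a = dd (cc α) s a ^ θ *
      (α ^ (2 * θ) * (1 + (a : ℝ)) ^ (-(1 + α / 2 ^ (s + 1)))) := by
    intro a ha
    have e0 : (0 : ℝ) < 1 + (a : ℝ) := by positivity
    have e1 : (α ^ 2) ^ θ = α ^ (2 * θ) := by
      rw [← Real.rpow_natCast, ← Real.rpow_mul hα.le]
      norm_num
    have e2 : ((1 + (a : ℝ)) ^ (-(1 + α))) ^ θ = (1 + (a : ℝ)) ^ (-(1 + α / 2 ^ (s + 1))) := by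
      rw [← Real.rpow_mul e0.le]
      congr 1
      rw [← t4]
      ring
    unfold FF
    rw [Real.mul_rpow (hdd0 a) (hnn a), ← hθ]
    unfold nn
    rw [if_neg (by omega), Real.mul_rpow (by positivity) (by positivity), e1, e2]
  have hFFle : ∀ a, 1 ≤ a → FF α s a ≤ 2 ^ 24 * α ^ 2 * (1 + (a : ℝ)) ^ (-(1 + α / 2 ^ (s + 1))) := by
    intro a ha
    obtain ⟨b1, b2, b3, b4⟩ := hBKP (cc α) s a hcc ha
    have h1 : dd (cc α) s a ^ θ ≤ 2 ^ 23 := by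
      have e1 : dd (cc α) s a ^ θ ≤ dd (cc α) s a ^ (1 : ℝ) :=
        Real.rpow_le_rpow_of_exponent_le (le_trans (by norm_num) b2) t2
      rw [Real.rpow_one] at e1
      have e2 := (hdd a ha).1
      linarith
    rw [hFF a ha]
    have hp : 0 ≤ (1 + (a : ℝ)) ^ (-(1 + α / 2 ^ (s + 1))) := by positivity
    calc dd (cc α) s a ^ θ * (α ^ (2 * θ) * (1 + (a : ℝ)) ^ (-(1 + α / 2 ^ (s + 1))))
        ≤ 2 ^ 23 * ((2 * α ^ 2) * (1 + (a : ℝ)) ^ (-(1 + α / 2 ^ (s + 1)))) := by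
          refine mul_le_mul h1 (mul_le_mul_of_nonneg_right a2 hp) ?_ (by positivity)
          positivity
      _ = _ := by ring
  have hFFnn : ∀ a, 0 ≤ FF α s a := by
    intro a
    unfold FF
    exact Real.rpow_nonneg (mul_nonneg (hdd0 a) (hnn a)) _
  have hsplit : ∀ n, 1 ≤ n → ∑ a ∈ Finset.range n, FF α s a ≤
      9 * α + 2 ^ 24 * α ^ 2 * ∑ a ∈ Finset.Ico 1 n, (1 + (a : ℝ)) ^ (-(1 + α / 2 ^ (s + 1))) := by
    intro n hn
    have e1 : ∑ a ∈ Finset.range n, FF α s a = FF α s 0 + ∑ a ∈ Finset.Ico 1 n, FF α s a := by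
      rw [Finset.range_eq_Ico, Finset.sum_eq_sum_Ico_succ_bot (by omega)]
    rw [e1, Finset.mul_sum]
    refine add_le_add ?_ (Finset.sum_le_sum fun a ha => hFFle a (Finset.mem_Ico.1 ha).1)
    rw [hFF0]
    exact a3
  have hε : 0 < α / 2 ^ (s + 1) := by positivity
  refine ⟨hFFnn, by rw [hFF0, hθ], ?_, ?_, ?_⟩
  · intro a ha
    obtain ⟨h1, h2⟩ := hdd a ha
    refine ⟨h1, h2, ?_⟩
    rw [← hθ]
    exact hFF a ha
  · intro n
    rcases Nat.eq_zero_or_pos n with h | h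
    · rw [h]
      simp
      exact hα.le
    · refine (hsplit n h).trans ?_
      have h1 := (hSPL (α / 2 ^ (s + 1)) hε n).1
      have h2 : 2 ^ 24 * α ^ 2 * ∑ a ∈ Finset.Ico 1 n,
          (1 + (a : ℝ)) ^ (-(1 + α / 2 ^ (s + 1))) ≤ 2 ^ 25 * (α * 2 ^ s) := by
        calc 2 ^ 24 * α ^ 2 * ∑ a ∈ Finset.Ico 1 n, (1 + (a : ℝ)) ^ (-(1 + α / 2 ^ (s + 1)))
            ≤ 2 ^ 24 * α ^ 2 * (1 / (α / 2 ^ (s + 1))) :=
              mul_le_mul_of_nonneg_left h1 (by positivity)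
          _ = 2 ^ 25 * (α * 2 ^ s) := by
              rw [pow_succ 2 s]
              field_simp
      have h3 : α ≤ α * 2 ^ s := le_mul_of_one_le_right hα.le h2s
      have h4 : 5 * 2 ^ 23 * α * 2 ^ s = 5 * 2 ^ 23 * (α * 2 ^ s) := by ring
      rw [h4]
      norm_num at h2 ⊢
      linarith
  · refine (hsplit _ (by omega)).trans ?_
    have h1 := (hSPL (α / 2 ^ (s + 1)) hε (8 * 2 ^ s + 1)).2 (by omega)
    have h2 : Real.log ((8 * 2 ^ s + 1 : ℕ) : ℝ) ≤ Real.log (1 / α) := by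
      apply Real.log_le_log (by positivity)
      rw [le_div_iff₀ hα]
      push_cast
      have e1 : (8 * (2 : ℝ) ^ s + 1) * α = 8 * (α * 2 ^ s) + α := by ring
      rw [e1]
      norm_num at hα2s hα1 ⊢
      linarith
    have h3 : 2 ^ 24 * α ^ 2 * ∑ a ∈ Finset.Ico (1 : ℕ) (8 * 2 ^ s + 1),
        (1 + (a : ℝ)) ^ (-(1 + α / 2 ^ (s + 1))) ≤ α := by
      calc 2 ^ 24 * α ^ 2 * ∑ a ∈ Finset.Ico (1 : ℕ) (8 * 2 ^ s + 1),
            (1 + (a : ℝ)) ^ (-(1 + α / 2 ^ (s + 1)))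
          ≤ 2 ^ 24 * α ^ 2 * Real.log (1 / α) :=
            mul_le_mul_of_nonneg_left (h1.trans h2) (by positivity)
        _ = 2 ^ 24 * α * (α * Real.log (1 / α)) := by ring
        _ ≤ 2 ^ 24 * α * (1 / 2 ^ 24) := mul_le_mul_of_nonneg_left a6 (by positivity)
        _ = α := by ring
    linarith

end Pool.Agent.H86.CU
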